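import Pool.Agent.Results.MP_b298ef_co.OddExclude

/-!
# An instance of the hypotheses of `OddExclude`: the cube function on the field with 8 elements
-/

namespace Pool.Agent.Helper77.Vac

open Finset Pool.Agent.Results.MP_b298ef_co.OddExclude

/-- `x ↦ x³` on `𝔽₈ = 𝔽₂[a]/(a³ + a + 1)` in the basis `1, a, a²` -/
def cube (x : V 3) : V 3 :=
  ![x 0 + x 1 + x 2 + x 1 * x 2, x 1 + x 0 * x 1 + x 0 * x 2, x 2 + x 0 * x 1]

theorem cube_apn : IsAPN cube := by
  unfold IsAPN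
  decide +kernel

/-- the integer Walsh transform -/
def wz (u v : V 3) : ℤ := ∑ x : V 3, (-1 : ℤ) ^ (v ⬝ᵥ cube x + u ⬝ᵥ x).val

lemma wz_val : ∀ v : V 3, v ≠ 0 → ∀ u : V 3, wz u v = 0 ∨ wz u v = 4 ∨ wz u v = -4 := by
  decide +kernel

theorem cube_plateaued : IsPlateaued cube := by
  intro v hv
  refine ⟨4, by norm_num, fun u => ?_⟩
  have h : walsh cube u v = ((wz u v : ℤ) : ℝ) := by
    unfold walsh wz
    push_cast
    rfl
  rw [h]
  rcases wz_val v hv u with h1 | h1 | h1 <;> rw [h1] <;> norm_num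

end Pool.Agent.Helper77.Vac
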